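import Pool.Agent.POpt67.Tally

/-!
# Polynomial advice
-/

set_option autoImplicit false

namespace Pool.Agent.POpt67

open Pool.Agent.PT Pool.Agent.TMB67 N68a2faeb N793a5b8e N487b59b3

/-- Computable in polynomial time with advice of polynomial length (`FP/poly`): the advice depends
only on the length of the input. -/
def IsPolyTimeAdvice (f : List Bool → List Bool) : Prop :=
  ∃ (a : ℕ → List Bool) (p : Polynomial ℕ) (g : List Bool × List Bool → List Bool),
    IsPolyTime g ∧ (∀ n, (a n).length ≤ p.eval n) ∧ ∀ x, f x = g (a x.length, x)

/-- A proof system for `L` computed in polynomial time with polynomial advice. -/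
def IsAdviceProofSystem (L : DecisionProblem) (Q : List Bool → List Bool) : Prop :=
  IsPolyTimeAdvice Q ∧ ∀ y, L y ↔ ∃ π, Q π = y

/-- An advice proof system which simulates all advice proof systems for `L`, the translations being
computable in polynomial time with polynomial advice. -/
def IsAdviceOptimal (L : DecisionProblem) (Q : List Bool → List Bool) : Prop :=
  IsAdviceProofSystem L Q ∧ ∀ Q', IsAdviceProofSystem L Q' →
    ∃ h, IsPolyTimeAdvice h ∧ ∀ π, Q (h π) = Q' π

theorem bitEncode_table_length (l : List (List Bool)) (B : ℕ) (hl : ∀ w ∈ l, w.length ≤ B) :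
    (bitEncode l : List Bool).length ≤ l.length * (6 * B + 1) := by
  have hb : ∀ l : List (List Bool), (bitEncode l : List Bool) =
      ((l.map bitEncode).map delimit).flatten := fun _ => rfl
  rw [hb]
  induction l with
  | nil => simp
  | cons w l ih =>
    rw [List.map_cons, List.map_cons, List.flatten_cons, List.length_append, length_delimit,
      bitEncode_list_length, List.length_cons]
    have h4 := ih fun w hw => hl w (by simp [hw])
    have h5 := hl w (by simp)
    have h7 : (l.length + 1) * (6 * B + 1) = l.length * (6 * B + 1) + (6 * B + 1) := by ring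
    omega

/-- Advice given as a table of strings. -/
theorem isPolyTimeAdvice_of_table {f : List Bool → List Bool} (a : ℕ → List (List Bool))
    (p : Polynomial ℕ) (hap : ∀ n, (a n).length ≤ p.eval n ∧ ∀ w ∈ a n, w.length ≤ p.eval n)
    (g : List (List Bool) × List Bool → List Bool) (hg : PolyTime g)
    (hf : ∀ x, f x = g (a x.length, x)) : IsPolyTimeAdvice f := by
  obtain ⟨D, hD, hD'⟩ := Compat.dec (α := List (List Bool))
  refine ⟨fun n => bitEncode (a n), p * (6 * p + 1), fun z => g (D z.1, z.2),
    isPolyTime_iff.2 (hg.comp (PolyTime.pair (hD.comp PolyTime.fst') PolyTime.snd')),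
    fun n => ?_, fun x => ?_⟩
  · obtain ⟨h1, h2⟩ := hap n
    have h6 := bitEncode_table_length (a n) (p.eval n) h2
    rw [Polynomial.eval_mul, Polynomial.eval_add, Polynomial.eval_mul, Polynomial.eval_one]
    have hE : Polynomial.eval n (6 : Polynomial ℕ) = 6 := Polynomial.eval_natCast (n := 6) (x := n)
    rw [hE]
    exact h6.trans (Nat.mul_le_mul_right _ h1)
  · simp only [hD', hf x]

end Pool.Agent.POpt67
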