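import Pool.Agent.TMBridge67.Enc
import Pool.Prelude.Def_F_458e953d

/-!
# Basic facts on proof systems in the sense of Cook and Reckhow
-/

set_option autoImplicit false

namespace Pool.Agent.POpt67

open Pool.Agent.PT Pool.Agent.TMB67 N68a2faeb N793a5b8e N487b59b3

theorem mem_P_iff {A : DecisionProblem} : A ∈ P ↔ PolyTime A := isPolyTime_iff

theorem mem_NP_iff {A : DecisionProblem} : A ∈ NP ↔ ∃ (p : Polynomial ℕ)
    (R : List Bool × List Bool → Bool), PolyTime R ∧
      ∀ x, A x ↔ ∃ w : List Bool, w.length ≤ p.eval x.length ∧ R (x, w) := by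
  constructor
  · rintro ⟨p, R, hR, h⟩
    exact ⟨p, R, isPolyTime_iff.1 hR, h⟩
  · rintro ⟨p, R, hR, h⟩
    exact ⟨p, R, isPolyTime_iff.2 hR, h⟩

theorem isProofSystem_iff {L : DecisionProblem} {Q : List Bool → List Bool} :
    IsProofSystem L Q ↔ PolyTime Q ∧ ∀ y, L y ↔ ∃ π, Q π = y := by
  rw [IsProofSystem, isPolyTime_iff]

theorem reduction_of_complete {L A : DecisionProblem} (hL : IsCompleteFor NP L) (hA : A ∈ NP) :
    ∃ g : List Bool → List Bool, PolyTime g ∧ ∀ x, A x = L (g x) := by
  obtain ⟨g, hg, h⟩ := hL.2 A hA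
  exact ⟨g, isPolyTime_iff.1 hg, h⟩

theorem const_mem_NP (b : Bool) : (fun _ => b : DecisionProblem) ∈ NP :=
  mem_NP_iff.2 ⟨0, fun _ => b, by fun_prop, fun x => by
    constructor
    · intro h; exact ⟨[], by simp, h⟩
    · rintro ⟨_, _, h⟩; exact h⟩

/-- A complete language has an element. -/
theorem exists_mem_of_complete {L : DecisionProblem} (hL : IsCompleteFor NP L) :
    ∃ y, L y = true := by
  obtain ⟨g, _, h⟩ := reduction_of_complete hL (const_mem_NP true)
  exact ⟨g [], (h []).symm⟩

theorem polyEval_length {α β : Type} [Enc α] [Enc β] (p : Polynomial ℕ) {l : α → List β}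
    (hl : PolyTime l) : PolyTime (fun x => p.eval (l x).length) :=
  polyEval_polyTime hl.length p

/-- Every nonempty language in `NP` has a proof system. -/
theorem exists_proofSystem {L : DecisionProblem} (hL : L ∈ NP) {y0 : List Bool}
    (h0 : L y0 = true) : ∃ Q : List Bool → List Bool, PolyTime Q ∧ ∀ y, L y ↔ ∃ π, Q π = y := by
  obtain ⟨p, R, hR, h⟩ := mem_NP_iff.1 hL
  obtain ⟨D, hD, hD'⟩ := Compat.dec (α := List Bool × List Bool)
  refine ⟨fun π => if ((D π).2.length ≤ p.eval (D π).1.length ∧ R (D π) = true) then (D π).1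
    else y0, ?_, fun y => ⟨fun hy => ?_, ?_⟩⟩
  · refine PolyTime.ite (PolyTime.decide_and (PolyTime.decide_le ?_ ?_) ?_) ?_ ?_
    · exact (PolyTime.snd hD).length
    · exact polyEval_length p (PolyTime.fst hD)
    · exact PolyTime.decide_eq_true (hR.comp hD)
    · exact PolyTime.fst hD
    · exact PolyTime.const y0
  · obtain ⟨w, hw, hR'⟩ := (h y).1 hy
    refine ⟨bitEncode (y, w), ?_⟩
    simp only [hD']
    rw [if_pos ⟨hw, hR'⟩]
  · rintro ⟨π, rfl⟩
    beta_reduce
    by_cases hc : ((D π).2.length ≤ p.eval (D π).1.length ∧ R (D π) = true)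
    · rw [if_pos hc]
      exact (h _).2 ⟨(D π).2, hc.1, hc.2⟩
    · rw [if_neg hc]
      exact h0

/-- Instances of the inner `NP` predicate reduce to a complete language. -/
theorem inner_reduction {L : DecisionProblem} (hL : IsCompleteFor NP L) (p : Polynomial ℕ)
    {R : List Bool × (List Bool × List Bool) → Bool} (hR : PolyTime R) :
    ∃ g : List Bool → List Bool, PolyTime g ∧ ∀ x u : List Bool,
      L (g (bitEncode (x, u))) = true ↔
        ∃ w : List Bool, w.length ≤ p.eval x.length ∧ R (x, (u, w)) = true := by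
  obtain ⟨D, hD, hD'⟩ := Compat.dec (α := List Bool × List Bool)
  obtain ⟨B, hB⟩ : ∃ B : DecisionProblem, ∀ z, B z = true ↔ ∃ w : List Bool,
      w.length ≤ (p.eval (D z).1.length) ∧ R ((D z).1, ((D z).2, w)) = true := by
    classical
    exact ⟨fun z => decide (∃ w : List Bool,
      w.length ≤ (p.eval (D z).1.length) ∧ R ((D z).1, ((D z).2, w)) = true), fun z => by simp⟩
  have hBNP : B ∈ NP := by
    obtain ⟨q, hq⟩ : PBdd (fun z : List Bool => p.eval (D z).1.length) :=
      (polyEval_length p (PolyTime.fst hD)).pbdd.of_le fun z => by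
        rw [sz_nat]; omega
    refine mem_NP_iff.2 ⟨q.comp (4 * Polynomial.X + 1), fun z => decide (z.2.length ≤
      p.eval (D z.1).1.length) && R ((D z.1).1, ((D z.1).2, z.2)), ?_, fun z => ?_⟩
    · have hD1 : PolyTime (fun z : List Bool × List Bool => D z.1) := hD.comp PolyTime.fst'
      refine PolyTime.and (PolyTime.decide_le (by fun_prop) ?_) (hR.comp ?_)
      · exact polyEval_length p (PolyTime.fst hD1)
      · exact PolyTime.pair (PolyTime.fst hD1) (PolyTime.pair (PolyTime.snd hD1) PolyTime.snd')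
    · rw [hB]
      constructor
      · rintro ⟨w, hw, hw'⟩
        refine ⟨w, ?_, by simp [hw, hw']⟩
        rw [Polynomial.eval_comp]
        refine (hw.trans (hq z)).trans (eval_mono q ?_)
        simpa using sz_listBool z
      · rintro ⟨w, _, hw'⟩
        simp only [Bool.and_eq_true, decide_eq_true_iff] at hw'
        exact ⟨w, hw'.1, hw'.2⟩
  obtain ⟨g, hg, hgB⟩ := reduction_of_complete hL hBNP
  refine ⟨g, hg, fun x u => ?_⟩
  rw [← hgB, hB, hD']

end Pool.Agent.POpt67
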