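import Pool.Agent.POpt67.Advice

/-!
# Nonuniform p-optimal proof systems collapse the polynomial hierarchy
-/

set_option autoImplicit false

namespace Pool.Agent.POpt67.OldNonuniformCollapse

open N68a2faeb N793a5b8e Pool.Agent.POpt67

/-- The class `Π₂ᵖ` of the polynomial-time hierarchy. -/
def PiTwo : DecisionComplexityClass :=
  { A | ∃ (p : Polynomial ℕ) (R : List Bool × (List Bool × List Bool) → Bool), IsPolyTime R ∧
      ∀ x, A x ↔ ∀ u : List Bool, u.length ≤ p.eval x.length →
        ∃ w : List Bool, w.length ≤ p.eval x.length ∧ R (x, (u, w)) }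

/-- The class `Σ₂ᵖ/poly`. -/
def SigmaTwoPoly : DecisionComplexityClass :=
  { A | ∃ (a : ℕ → List Bool) (p : Polynomial ℕ)
      (R : List Bool × (List Bool × (List Bool × List Bool)) → Bool), IsPolyTime R ∧
      (∀ n, (a n).length ≤ p.eval n) ∧
      ∀ x, A x ↔ ∃ v : List Bool, v.length ≤ p.eval x.length ∧
        ∀ u : List Bool, u.length ≤ p.eval x.length → R (a x.length, (x, (v, u))) }

/-- `Q` is a proof system for `L` computed in polynomial time with sublinear advice: the `c`-th
power of the length of the advice for inputs of length `n` is at most `n`. -/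
def IsSmallAdviceProofSystem (c : ℕ) (L : DecisionProblem) (Q : List Bool → List Bool) : Prop :=
  (∃ (a : ℕ → List Bool) (g : List Bool × List Bool → List Bool),
    IsPolyTime g ∧ (∀ n, (a n).length ^ c ≤ n) ∧ ∀ x, Q x = g (a x.length, x)) ∧
  ∀ y, L y ↔ ∃ π, Q π = y

section proof

open Pool.Agent.PT Pool.Agent.TMB67 N487b59b3

instance : Countable Cmd := by
  refine Function.Surjective.countable cmdOf_surjective

instance : Countable (Polynomial ℕ) := by
  rw [← Cardinal.mk_le_aleph0_iff]
  exact Polynomial.cardinalMk_le_max.trans (by simp)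

/-- Bound for the length of a table. -/
def wd (r : ℕ) : ℕ := (r + 1) * (6 * (r + 1) + 1)

theorem wd_mono {r s : ℕ} (h : r ≤ s) : wd r ≤ wd s :=
  Nat.mul_le_mul (by omega) (by omega)

theorem le_wd (r : ℕ) : r ≤ wd r := by
  unfold wd
  nlinarith

theorem wd_polyTime {α : Type} [Enc α] {f : α → ℕ} (hf : PolyTime f) :
    PolyTime (fun x => wd (f x)) :=
  PolyTime.natMul (hf.natAdd (PolyTime.const 1))
    (PolyTime.natAdd (PolyTime.natMul (PolyTime.const 6) (hf.natAdd (PolyTime.const 1)))
      (PolyTime.const 1))

/-- The input on which the translation is tested. -/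
abbrev tst (k i n : ℕ) (u : List Bool) : List Bool :=
  true :: bitEncode (ones i, (ones n, (u, ones (wd (i + n) ^ k))))

theorem tst_length (k i n : ℕ) (u : List Bool) :
    (tst k i n u).length = 6 * i + 6 * n + 6 * u.length + 3 * wd (i + n) ^ k + 4 := by
  have h : (bitEncode (ones i, (ones n, (u, ones (wd (i + n) ^ k)))) : List Bool) =
      delimit (bitEncode (ones i)) ++ (delimit (bitEncode (ones n)) ++
        bitEncode (u, ones (wd (i + n) ^ k))) := rfl
  rw [List.length_cons, h, List.length_append, List.length_append, length_delimit,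
    length_delimit, bitEncode_list_length, bitEncode_list_length,
    bitEncode_pair_length, List.length_replicate, List.length_replicate, List.length_replicate]
  ring

variable {L : DecisionProblem} {Q : List Bool → List Bool}

/-- Short certificates. -/
def Cert (k : ℕ) (Q : List Bool → List Bool) (g : List Bool → List Bool) (p : Polynomial ℕ)
    (i : ℕ) (s : ℕ × Polynomial ℕ × Polynomial ℕ) (x : List Bool) : Prop :=
  ∃ c : ℕ → List Bool, (∀ m, (c m).length ≤ s.2.1.eval m) ∧
    ∀ u : List Bool, u.length ≤ p.eval x.length →
      Q (uni (cmdOf s.1) (s.2.2.eval (bitEncode (c (tst k i x.length u).length,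
        tst k i x.length u)).length) (bitEncode (c (tst k i x.length u).length,
        tst k i x.length u))) = g (bitEncode (x, u))

/-- The diagonal argument. -/
theorem exists_cert {k : ℕ} (hk : 1 ≤ k) (hL : IsCompleteFor NP L)
    (hQ : ∀ Q', IsSmallAdviceProofSystem k L Q' →
      ∃ h, IsPolyTimeAdvice h ∧ ∀ π, Q (h π) = Q' π)
    {A : List Bool → Prop} {g : List Bool → List Bool} (hg : PolyTime g) (p : Polynomial ℕ)
    (hA : ∀ x, A x → ∀ u : List Bool, u.length ≤ p.eval x.length →
      L (g (bitEncode (x, u))) = true) (ps : ℕ → ℕ × Polynomial ℕ × Polynomial ℕ)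
    (hps : Function.Surjective ps) : ∃ i, ∀ x, A x → Cert k Q g p i (ps i) x := by
  by_contra hcon
  push Not at hcon
  choose X hXA hX using hcon
  obtain ⟨y0, h0⟩ := exists_mem_of_complete hL
  obtain ⟨P₀, hP₀, hP₀'⟩ := exists_proofSystem hL.1 h0
  obtain ⟨D, hD, hD'⟩ := Compat.dec (α := List Bool × (List Bool × (List Bool × List Bool)))
  obtain ⟨D₂, hD₂, hD₂'⟩ := Compat.dec (α := List Bool × List Bool)
  obtain ⟨D₃, hD₃, hD₃'⟩ := Compat.dec (α := List (List Bool))
  -- the tables
  let r : ℕ → ℕ := fun m => Nat.findGreatest (fun r => wd r ^ k ≤ m) m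
  let T : ℕ → List (List Bool) := fun m => if wd 0 ^ k ≤ m then
    (List.range (r m + 1)).map (fun i => if (X i).length ≤ r m then true :: X i else [false])
    else []
  have hr : ∀ m s : ℕ, wd s ^ k ≤ m → wd 0 ^ k ≤ m ∧ s ≤ r m := by
    intro m s hs
    refine ⟨(Nat.pow_le_pow_left (wd_mono (Nat.zero_le s)) k).trans hs,
      Nat.le_findGreatest ?_ hs⟩
    exact ((le_wd s).trans (Nat.le_self_pow (by omega) _)).trans hs
  have hr0 : ∀ m : ℕ, wd 0 ^ k ≤ m → wd (r m) ^ k ≤ m := fun m hm =>
    Nat.findGreatest_spec (P := fun r => wd r ^ k ≤ m) (Nat.zero_le m) hm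
  -- the value of the system, given a table
  let V : List (List Bool) × List Bool → List Bool := fun z =>
    bif z.2.headD false then
      (if ((z.1.getD (D z.2.tail).1.length []).headD false = true ∧
          (z.1.getD (D z.2.tail).1.length []).tail.length = (D z.2.tail).2.1.length) ∧
          (D z.2.tail).2.2.1.length ≤ p.eval (D z.2.tail).2.1.length then
        g (bitEncode ((z.1.getD (D z.2.tail).1.length []).tail, (D z.2.tail).2.2.1)) else y0)
    else P₀ z.2.tail
  have hV : PolyTime V := by
    have t0 : PolyTime (fun z : List (List Bool) × List Bool => D z.2.tail) :=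
      hD.comp (PolyTime.tail PolyTime.snd')
    have t1 : PolyTime (fun z : List (List Bool) × List Bool =>
        z.1.getD (D z.2.tail).1.length []) :=
      PolyTime.getD PolyTime.fst' (PolyTime.fst t0).length (PolyTime.const [])
    have t2 : PolyTime (fun z : List (List Bool) × List Bool => (D z.2.tail).2.2.1) :=
      PolyTime.fst (PolyTime.snd (PolyTime.snd t0))
    refine PolyTime.cond (by fun_prop) (PolyTime.ite (PolyTime.decide_and (PolyTime.decide_and
      (PolyTime.decide_eq (PolyTime.headD t1 (PolyTime.const false)) (PolyTime.const true))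
      (PolyTime.decide_eq (PolyTime.length (PolyTime.tail t1))
        (PolyTime.length (PolyTime.fst (PolyTime.snd t0)))))
      (PolyTime.decide_le (PolyTime.length t2)
        (polyEval_length p (PolyTime.fst (PolyTime.snd t0))))) ?_ (PolyTime.const y0))
      (hP₀.comp (PolyTime.tail PolyTime.snd'))
    exact hg.comp ((Compat.enc (α := List Bool × List Bool)).comp
      (PolyTime.pair (PolyTime.tail t1) t2))
  have hTget : ∀ m i : ℕ, ((T m).getD i []).headD false = true →
      (T m).getD i [] = true :: X i := by
    intro m i hi
    rw [List.getD_eq_getElem?_getD] at hi ⊢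
    simp only [T] at hi ⊢
    by_cases h0m : wd 0 ^ k ≤ m
    · rw [if_pos h0m] at hi ⊢
      rw [List.getElem?_map] at hi ⊢
      rcases lt_or_ge i (r m + 1) with hlt | hge
      · rw [List.getElem?_range hlt] at hi ⊢
        simp only [Option.map_some, Option.getD_some] at hi ⊢
        by_cases hc : (X i).length ≤ r m
        · rw [if_pos hc]
        · rw [if_neg hc] at hi; simp at hi
      · rw [List.getElem?_eq_none (by simpa using hge)] at hi
        simp at hi
    · rw [if_neg h0m] at hi
      simp at hi
  have hTok : ∀ m i : ℕ, wd (i + (X i).length) ^ k ≤ m → (T m).getD i [] = true :: X i := by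
    intro m i hi
    obtain ⟨h1, h2⟩ := hr m _ hi
    rw [List.getD_eq_getElem?_getD]
    simp only [T]
    rw [if_pos h1, List.getElem?_map, List.getElem?_range (by omega)]
    have : (X i).length ≤ r m := by omega
    simp [this]
  have hTlen : ∀ m : ℕ, (bitEncode (T m) : List Bool).length ^ k ≤ m := by
    intro m
    simp only [T]
    by_cases h0m : wd 0 ^ k ≤ m
    · rw [if_pos h0m]
      refine le_trans (Nat.pow_le_pow_left ?_ k) (hr0 m h0m)
      have h1 := bitEncode_table_length ((List.range (r m + 1)).map
        (fun i => if (X i).length ≤ r m then true :: X i else [false])) (r m + 1) (by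
          intro w hw
          simp only [List.mem_map, List.mem_range] at hw
          obtain ⟨i, hi, rfl⟩ := hw
          by_cases hc : (X i).length ≤ r m
          · rw [if_pos hc]; simpa using hc
          · rw [if_neg hc]; simp)
      rw [List.length_map, List.length_range] at h1
      exact h1
    · rw [if_neg h0m]
      have : (bitEncode ([] : List (List Bool)) : List Bool).length = 0 := rfl
      rw [this, zero_pow (by omega)]
      exact Nat.zero_le m
  have hQ' : IsSmallAdviceProofSystem k L (fun π => V (T π.length, π)) := by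
    refine ⟨⟨fun m => bitEncode (T m), fun z => V (D₃ z.1, z.2),
      isPolyTime_iff.2 (hV.comp (PolyTime.pair (hD₃.comp PolyTime.fst') PolyTime.snd')),
      hTlen, fun x => by simp only [hD₃']⟩, fun y => ⟨fun hy => ?_, ?_⟩⟩
    · obtain ⟨π, hπ⟩ := (hP₀' y).1 hy
      exact ⟨false :: π, by simpa [V] using hπ⟩
    · rintro ⟨π, rfl⟩
      simp only [V]
      cases hh : π.headD false
      · simpa using (hP₀' _).2 ⟨π.tail, rfl⟩
      · rw [cond_true]
        split_ifs with hc
        · obtain ⟨⟨h1, h2⟩, h3⟩ := hc
          rw [hTget _ _ h1] at h2 ⊢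
          rw [List.tail_cons] at h2 ⊢
          refine hA _ (hXA _) _ ?_
          rw [h2]
          exact h3
        · exact h0
  obtain ⟨h, ⟨c, q1, H, hH, hc, hh⟩, hsim⟩ := hQ _ hQ'
  have hH := isPolyTime_iff.1 hH
  obtain ⟨prog, q2, hprog⟩ := uni_spec (hH.comp hD₂)
  obtain ⟨j, hj⟩ := cmdOf_surjective prog
  obtain ⟨i, hi⟩ := hps (j, q1, q2)
  refine hX i ⟨c, by rw [hi]; exact hc, fun u hu => ?_⟩
  rw [hi]
  simp only
  rw [hj, hprog _ _ le_rfl, hD₂', ← hh, hsim]
  simp only [V, List.headD_cons, cond_true, List.tail_cons, hD', List.length_replicate]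
  have hl := tst_length k i (X i).length u
  rw [hTok (tst k i (X i).length u).length i (by omega)]
  rw [if_pos ⟨⟨rfl, rfl⟩, hu⟩, List.tail_cons]

theorem uni_length' (p : Cmd) (t : ℕ) (x : List Bool) (B : ℕ) (hx : x.length ≤ B)
    (ht : t ≤ B) : (uni p t x).length ≤ 5 * B + 1 := by
  have := uni_length p t x
  omega

theorem main {k : ℕ} (hk : 1 ≤ k) (hL : IsCompleteFor NP L) (hQ0 : IsAdviceProofSystem L Q)
    (hQ : ∀ Q', IsSmallAdviceProofSystem k L Q' →
      ∃ h, IsPolyTimeAdvice h ∧ ∀ π, Q (h π) = Q' π) : PiTwo ⊆ SigmaTwoPoly := by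
  rintro A ⟨p, R, hR, hAR⟩
  obtain ⟨g, hg, hgL⟩ := inner_reduction hL p (isPolyTime_iff.1 hR)
  obtain ⟨ps, hps⟩ := exists_surjective_nat (ℕ × Polynomial ℕ × Polynomial ℕ)
  have hA1 : ∀ x, A x = true → ∀ u : List Bool, u.length ≤ p.eval x.length →
      L (g (bitEncode (x, u))) = true := fun x hx u hu =>
    (hgL x u).2 ((hAR x).1 hx u hu)
  obtain ⟨i, hi⟩ := exists_cert hk hL hQ hg p hA1 ps hps
  obtain ⟨⟨aQ, pQ, gQ, hgQ, haQ, hQv⟩, hQr⟩ := hQ0
  have hgQ := isPolyTime_iff.1 hgQ
  obtain ⟨D, hD, hD'⟩ := Compat.dec (α := List (List Bool))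
  generalize ps i = s at hi
  obtain ⟨j, q1, q2⟩ := s
  -- polynomials
  let Wd : Polynomial ℕ := (Polynomial.X + Polynomial.C (i + 1)) *
    (6 * (Polynomial.X + Polynomial.C (i + 1)) + 1)
  let M : Polynomial ℕ := Polynomial.C (6 * i + 4) + 6 * Polynomial.X + 6 * p + 3 * Wd ^ k
  let E : Polynomial ℕ := 6 * q1.comp M + 3 * M + 1
  let B : Polynomial ℕ := 5 * (E + q2.comp E) + 1
  have hWd : ∀ n, Wd.eval n = wd (i + n) := fun n => by
    simp only [Wd, wd, Polynomial.eval_mul, Polynomial.eval_add, Polynomial.eval_X,
      Polynomial.eval_C, Polynomial.eval_ofNat, Polynomial.eval_one]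
    ring
  have hM : ∀ n, M.eval n = 6 * i + 4 + 6 * n + 6 * p.eval n + 3 * wd (i + n) ^ k := fun n => by
    simp [M, hWd]
  have hE : ∀ n, E.eval n = 6 * q1.eval (M.eval n) + 3 * M.eval n + 1 := fun n => by
    simp [E, Polynomial.eval_comp]
  have hB : ∀ n, B.eval n = 5 * (E.eval n + q2.eval (E.eval n)) + 1 := fun n => by
    simp [B, Polynomial.eval_comp]
  -- the tested word
  let W : List (List Bool) → List Bool → List Bool → List Bool := fun tb x u =>
    uni (cmdOf j) (q2.eval (bitEncode (tb.getD (tst k i x.length u).length [],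
      tst k i x.length u)).length) (bitEncode (tb.getD (tst k i x.length u).length [],
      tst k i x.length u))
  have htst : PolyTime (fun z : List Bool × List Bool => tst k i z.1.length z.2) :=
    PolyTime.cons (PolyTime.const true) ((Compat.enc
      (α := List Bool × (List Bool × (List Bool × List Bool)))).comp
      (PolyTime.pair (PolyTime.const _) (PolyTime.pair
        (PolyTime.replicate (PolyTime.length PolyTime.fst') (PolyTime.const true))
        (PolyTime.pair PolyTime.snd' (PolyTime.replicate (PolyTime.natPowConst
          (wd_polyTime ((PolyTime.const i).natAdd (PolyTime.length PolyTime.fst'))) k)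
            (PolyTime.const true))))))
  have hW : PolyTime (fun z : List (List Bool) × (List Bool × List Bool) => W z.1 z.2.1 z.2.2) := by
    have t1 : PolyTime (fun z : List (List Bool) × (List Bool × List Bool) =>
        tst k i z.2.1.length z.2.2) := htst.comp PolyTime.snd'
    have t2 : PolyTime (fun z : List (List Bool) × (List Bool × List Bool) =>
        z.1.getD (tst k i z.2.1.length z.2.2).length []) :=
      PolyTime.getD PolyTime.fst' t1.length (PolyTime.const [])
    have t3 : PolyTime (fun z : List (List Bool) × (List Bool × List Bool) =>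
        bitEncode (z.1.getD (tst k i z.2.1.length z.2.2).length [], tst k i z.2.1.length z.2.2)) :=
      (Compat.enc (α := List Bool × List Bool)).comp (PolyTime.pair t2 t1)
    exact uni_polyTime.comp (PolyTime.pair (PolyTime.const (cmdOf j))
      (PolyTime.pair (polyEval_length q2 t3) t3))
  refine ⟨fun n => bitEncode ((List.range (B.eval n + 1)).map aQ),
    p + (M + 1) * (6 * q1.comp M + 1) + (B + 1) * (6 * pQ.comp B + 1),
    fun z => !(decide (z.2.2.2.length ≤ p.eval z.2.1.length)) ||
      (decide ((W (D z.2.2.1) z.2.1 z.2.2.2).length < (D z.1).length) &&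
      decide (gQ ((D z.1).getD (W (D z.2.2.1) z.2.1 z.2.2.2).length [],
        W (D z.2.2.1) z.2.1 z.2.2.2) = g (bitEncode (z.2.1, z.2.2.2)))),
    isPolyTime_iff.2 ?_, fun n => ?_, fun x => ?_⟩
  · have t0 : PolyTime (fun z : List Bool × (List Bool × (List Bool × List Bool)) => D z.1) :=
      hD.comp PolyTime.fst'
    have t1 : PolyTime (fun z : List Bool × (List Bool × (List Bool × List Bool)) =>
        W (D z.2.2.1) z.2.1 z.2.2.2) :=
      hW.comp (f := fun z : List Bool × (List Bool × (List Bool × List Bool)) =>
        (D z.2.2.1, (z.2.1, z.2.2.2)))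
        (PolyTime.pair (hD.comp (by fun_prop)) (by fun_prop))
    refine PolyTime.or (PolyTime.not (PolyTime.decide_le (by fun_prop)
      (polyEval_length p (by fun_prop)))) (PolyTime.and (PolyTime.decide_lt t1.length t0.length)
        (PolyTime.decide_eq (hgQ.comp (PolyTime.pair
          (PolyTime.getD t0 t1.length (PolyTime.const [])) t1)) (hg.comp
            ((Compat.enc (α := List Bool × List Bool)).comp (by fun_prop)))))
  · have h1 := bitEncode_table_length ((List.range (B.eval n + 1)).map aQ) (pQ.eval (B.eval n))
      (by
        intro w hw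
        simp only [List.mem_map, List.mem_range] at hw
        obtain ⟨m, hm, rfl⟩ := hw
        exact (haQ m).trans (eval_mono pQ (Nat.le_of_lt_succ hm)))
    rw [List.length_map, List.length_range] at h1
    refine h1.trans ?_
    simp only [Polynomial.eval_add, Polynomial.eval_mul, Polynomial.eval_comp,
      Polynomial.eval_one, Polynomial.eval_ofNat]
    exact Nat.le_add_left _ _
  · have hP : (p + (M + 1) * (6 * q1.comp M + 1) + (B + 1) * (6 * pQ.comp B + 1)).eval x.length =
        p.eval x.length + (M.eval x.length + 1) * (6 * q1.eval (M.eval x.length) + 1) +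
        (B.eval x.length + 1) * (6 * pQ.eval (B.eval x.length) + 1) := by
      simp only [Polynomial.eval_add, Polynomial.eval_mul, Polynomial.eval_comp,
        Polynomial.eval_one, Polynomial.eval_ofNat]
    rw [hP]
    simp only [hD', Bool.or_eq_true, Bool.not_eq_true', decide_eq_false_iff_not, Bool.and_eq_true,
      decide_eq_true_iff, List.length_map, List.length_range]
    have hval : ∀ z : List Bool, z.length < B.eval x.length + 1 →
        gQ (((List.range (B.eval x.length + 1)).map aQ).getD z.length [], z) = Q z := by
      intro z hz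
      rw [hQv, List.getD_eq_getElem?_getD, List.getElem?_map, List.getElem?_range hz]
      rfl
    constructor
    · intro hx
      obtain ⟨c, hc, hcu⟩ := hi x hx
      simp only at hc hcu
      refine ⟨bitEncode ((List.range (M.eval x.length + 1)).map c), ?_, fun u _ => ?_⟩
      · have h1 := bitEncode_table_length ((List.range (M.eval x.length + 1)).map c)
          (q1.eval (M.eval x.length)) (by
            intro w hw
            simp only [List.mem_map, List.mem_range] at hw
            obtain ⟨m, hm, rfl⟩ := hw
            exact (hc m).trans (eval_mono q1 (Nat.le_of_lt_succ hm)))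
        rw [List.length_map, List.length_range] at h1
        omega
      · by_cases hu : u.length ≤ p.eval x.length
        · right
          rw [hD']
          have hlen := tst_length k i x.length u
          have hlM : (tst k i x.length u).length ≤ M.eval x.length := by
            rw [hM]
            omega
          have hget : ((List.range (M.eval x.length + 1)).map c).getD
              (tst k i x.length u).length [] = c (tst k i x.length u).length := by
            rw [List.getD_eq_getElem?_getD, List.getElem?_map,
              List.getElem?_range (Nat.lt_succ_of_le hlM)]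
            rfl
          have hWv : W ((List.range (M.eval x.length + 1)).map c) x u =
              uni (cmdOf j) (q2.eval (bitEncode (c (tst k i x.length u).length,
                tst k i x.length u)).length) (bitEncode (c (tst k i x.length u).length,
                tst k i x.length u)) := by
            simp only [W, hget]
          have hlE : (bitEncode (c (tst k i x.length u).length, tst k i x.length u)).length ≤
              E.eval x.length := by
            rw [bitEncode_pair_length, hE]
            have h1 := (hc (tst k i x.length u).length).trans (eval_mono q1 hlM)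
            omega
          have hWB : (W ((List.range (M.eval x.length + 1)).map c) x u).length <
              B.eval x.length + 1 := by
            rw [hWv, hB]
            have h2 := eval_mono q2 hlE
            exact Nat.lt_succ_of_le (uni_length' _ _ _ _ (by omega) (by omega))
          refine ⟨hWB, ?_⟩
          rw [hval _ hWB, hWv]
          exact hcu u hu
        · exact Or.inl hu
    · rintro ⟨v, _, hv⟩
      rw [hAR]
      intro u hu
      rcases hv u (by omega) with h1 | ⟨h1, h2⟩
      · exact absurd hu h1
      · rw [hval _ h1] at h2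
        exact (hgL x u).1 ((hQr _).2 ⟨_, h2⟩)

end proof

/-- Suppose that some `NP`-complete language `L` has a proof system `Q` with polynomial advice
which simulates, with polynomial advice, all proof systems for `L` with advice of length at most
the `k`-th root of the input length. Then `Π₂ᵖ ⊆ Σ₂ᵖ/poly`. -/
theorem result (k : ℕ) (hk : 1 ≤ k) (L : DecisionProblem) (hL : IsCompleteFor NP L)
    (Q : List Bool → List Bool) (hQ : IsAdviceProofSystem L Q)
    (hsim : ∀ Q', IsSmallAdviceProofSystem k L Q' →
      ∃ h, IsPolyTimeAdvice h ∧ ∀ π, Q (h π) = Q' π) : PiTwo ⊆ SigmaTwoPoly :=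
  main hk hL hQ hsim

end Pool.Agent.POpt67.OldNonuniformCollapse
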