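import Pool.Agent.POpt67.Tally

/-!
# Uniform p-optimality with tally parameters is equivalent to a collapse of tally sets
-/

set_option autoImplicit false

namespace Pool.Agent.Results.MP_c56612_lc.UniformTally

open N68a2faeb N793a5b8e

/-- `A` is a tally language: all its elements are of the form `1^n`. -/
def IsTally (A : DecisionProblem) : Prop :=
  ∀ x : List Bool, A x = true → x = List.replicate x.length true

/-- The class `Π₂ᵖ` of the polynomial-time hierarchy. -/
def PiTwo : DecisionComplexityClass :=
  { A | ∃ (p : Polynomial ℕ) (R : List Bool × (List Bool × List Bool) → Bool), IsPolyTime R ∧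
      ∀ x, A x ↔ ∀ u : List Bool, u.length ≤ p.eval x.length →
        ∃ w : List Bool, w.length ≤ p.eval x.length ∧ R (x, (u, w)) }

/-- The proof system `Q` simulates the tally family `F` uniformly: one polynomial-time function
`H` translates, for every `n` such that `F (1^n, ·)` is a proof system for `L`, all
`F (1^n, ·)`-proofs into `Q`-proofs of the same strings. -/
def SimulatesTallyFamily (L : DecisionProblem) (Q : List Bool → List Bool)
    (F : List Bool × List Bool → List Bool) : Prop :=
  ∃ H : List Bool × List Bool → List Bool, IsPolyTime H ∧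
    ∀ n : ℕ, IsProofSystem L (fun π => F (List.replicate n true, π)) →
      ∀ π, Q (H (List.replicate n true, π)) = F (List.replicate n true, π)

section proof

open Pool.Agent.PT Pool.Agent.TMB67 Pool.Agent.POpt67 N487b59b3

/-- The hypothesis that every tally family is simulated. -/
def AllSim (L : DecisionProblem) : Prop := ∀ F, IsPolyTime F → ∃ Q, IsProofSystem L Q ∧
  SimulatesTallyFamily L Q F

theorem isTally_polyTime : PolyTime
    (fun x : List Bool => decide (x = List.replicate x.length true)) :=
  PolyTime.decide_eq PolyTime.id (PolyTime.replicate (by fun_prop) (PolyTime.const true))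

/-- Tally sets in `NP` are in `P`. -/
theorem tallyNP {L : DecisionProblem} (hL : IsCompleteFor NP L) (h : AllSim L)
    {A : DecisionProblem} (hA : A ∈ NP) (hT : IsTally A) : A ∈ P := by
  obtain ⟨y0, h0⟩ := exists_mem_of_complete hL
  obtain ⟨g, hg, hgA⟩ := reduction_of_complete hL hA
  obtain ⟨P₀, hP₀, hP₀'⟩ := exists_proofSystem hL.1 h0
  have hF : PolyTime (fun p : List Bool × List Bool =>
      if p.2 = [] then g p.1 else P₀ p.2.tail) :=
    PolyTime.ite (by fun_prop) (hg.comp PolyTime.fst') (hP₀.comp (PolyTime.tail PolyTime.snd'))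
  obtain ⟨Q, hQ, H, hH, hsim⟩ := h _ (isPolyTime_iff.2 hF)
  have hQ' := isProofSystem_iff.1 hQ
  have hH' := isPolyTime_iff.1 hH
  have h1 : PolyTime (fun x : List Bool => decide (Q (H (x, [])) = g x)) :=
    PolyTime.decide_eq (hQ'.1.comp (hH'.comp (PolyTime.pair PolyTime.id (PolyTime.const [])))) hg
  refine mem_P_iff.2 ((PolyTime.and isTally_polyTime h1).congr fun x => ?_)
  rw [Bool.eq_iff_iff, Bool.and_eq_true, decide_eq_true_iff, decide_eq_true_iff]
  constructor
  · intro hx
    have hx' := hT x hx
    refine ⟨hx', ?_⟩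
    rw [hx'] at hx ⊢
    refine hsim x.length (isProofSystem_iff.2 ⟨?_, fun y => ⟨fun hy => ?_, ?_⟩⟩) []
    · exact hF.comp (PolyTime.pair (PolyTime.const _) PolyTime.id)
    · obtain ⟨π, hπ⟩ := (hP₀' y).1 hy
      exact ⟨true :: π, by simpa using hπ⟩
    · rintro ⟨π, rfl⟩
      cases π with
      | nil => simpa [← hgA] using hx
      | cons b π => simpa using (hP₀' _).2 ⟨π, rfl⟩
  · rintro ⟨_, hx⟩
    rw [hgA]
    exact (hQ'.2 _).2 ⟨_, hx⟩

theorem collapse_of_allSim {L : DecisionProblem} (hL : IsCompleteFor NP L) (h : AllSim L)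
    {A : DecisionProblem} (hA : A ∈ PiTwo) (hT : IsTally A) : A ∈ P := by
  obtain ⟨p, R, hR, hAR⟩ := hA
  have hR := isPolyTime_iff.1 hR
  obtain ⟨y0, h0⟩ := exists_mem_of_complete hL
  obtain ⟨P₀, hP₀, hP₀'⟩ := exists_proofSystem hL.1 h0
  obtain ⟨D, hD, hD'⟩ := Compat.dec (α := List Bool × List Bool)
  -- the inner language
  obtain ⟨B, hB⟩ : ∃ B : DecisionProblem, ∀ z, B z = true ↔ ∃ w : List Bool,
      w.length ≤ (p.eval (D z).1.length) ∧ R ((D z).1, ((D z).2, w)) = true := by
    classical
    exact ⟨fun z => decide (∃ w : List Bool,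
      w.length ≤ (p.eval (D z).1.length) ∧ R ((D z).1, ((D z).2, w)) = true), fun z => by simp⟩
  have hBNP : B ∈ NP := by
    obtain ⟨q, hq⟩ : PBdd (fun z : List Bool => p.eval (D z).1.length) :=
      (polyEval_length p (PolyTime.fst hD)).pbdd.of_le fun z => by
        rw [sz_nat]; omega
    refine mem_NP_iff.2 ⟨q.comp (4 * Polynomial.X + 1), fun z => decide (z.2.length ≤
      p.eval (D z.1).1.length) && R ((D z.1).1, ((D z.1).2, z.2)), ?_, fun z => ?_⟩
    · have hD1 : PolyTime (fun z : List Bool × List Bool => D z.1) := hD.comp PolyTime.fst'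
      refine PolyTime.and (PolyTime.decide_le (by fun_prop) ?_) (hR.comp ?_)
      · exact polyEval_length p (PolyTime.fst hD1)
      · exact PolyTime.pair (PolyTime.fst hD1) (PolyTime.pair (PolyTime.snd hD1) PolyTime.snd')
    · rw [hB]
      constructor
      · rintro ⟨w, hw, hw'⟩
        refine ⟨w, ?_, by simp [hw, hw']⟩
        rw [Polynomial.eval_comp]
        refine (hw.trans (hq z)).trans (eval_mono q ?_)
        simpa using sz_listBool z
      · rintro ⟨w, _, hw'⟩
        simp only [Bool.and_eq_true, decide_eq_true_iff] at hw'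
        exact ⟨w, hw'.1, hw'.2⟩
  obtain ⟨g, hg, hgB⟩ := reduction_of_complete hL hBNP
  have hF : PolyTime (fun q : List Bool × List Bool =>
      bif q.2.headD false then (if q.2.tail.length ≤ p.eval q.1.length then
        g (bitEncode (q.1, q.2.tail)) else y0) else P₀ q.2.tail) := by
    refine PolyTime.cond (by fun_prop) (PolyTime.ite (PolyTime.decide_le (by fun_prop) ?_) ?_
      (PolyTime.const _)) (hP₀.comp (by fun_prop))
    · exact polyEval_length p PolyTime.fst'
    · exact hg.comp ((Compat.enc (α := List Bool × List Bool)).comp (by fun_prop))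
  obtain ⟨Q, hQ, H, hH, hsim⟩ := h _ (isPolyTime_iff.2 hF)
  have hQ' := isProofSystem_iff.1 hQ
  have hH' := isPolyTime_iff.1 hH
  -- characterisation of `A`
  have hchar : ∀ n : ℕ, A (ones n) = true ↔ ∀ u : List Bool, u.length ≤ p.eval n →
      Q (H (ones n, true :: u)) = g (bitEncode (ones n, u)) := by
    intro n
    have hgood : ∀ u : List Bool, (L (g (bitEncode (ones n, u))) = true ↔
        ∃ w : List Bool, w.length ≤ p.eval n ∧ R (ones n, (u, w)) = true) := by
      intro u
      rw [← hgB, hB, hD']
      simp
    constructor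
    · intro hA1 u hu
      have hps : IsProofSystem L (fun π => (fun q : List Bool × List Bool =>
          bif q.2.headD false then (if q.2.tail.length ≤ p.eval q.1.length then
            g (bitEncode (q.1, q.2.tail)) else y0) else P₀ q.2.tail) (ones n, π)) := by
        refine isProofSystem_iff.2 ⟨hF.comp (PolyTime.pair (PolyTime.const _) PolyTime.id),
          fun y => ⟨fun hy => ?_, ?_⟩⟩
        · obtain ⟨π, hπ⟩ := (hP₀' y).1 hy
          exact ⟨false :: π, by simpa using hπ⟩
        · rintro ⟨π, rfl⟩
          cases π with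
          | nil => simpa using (hP₀' _).2 ⟨[], rfl⟩
          | cons b π =>
            cases b
            · simpa using (hP₀' _).2 ⟨π, rfl⟩
            · by_cases hc : π.length ≤ p.eval n
              · have h2 := (hAR (ones n)).1 hA1 π (by simpa using hc)
                simp only [List.length_replicate] at h2
                simpa [hc] using (hgood π).2 h2
              · simpa [hc] using h0
      have h3 := hsim n hps (true :: u)
      simpa [hu] using h3
    · intro hall
      rw [hAR]
      intro u hu
      rw [List.length_replicate] at hu ⊢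
      exact (hgood u).1 ((hQ'.2 _).2 ⟨_, hall u hu⟩)
  -- the complement is a tally set in NP
  obtain ⟨C, hC⟩ : ∃ C : DecisionProblem, ∀ x, C x = true ↔
      (x = List.replicate x.length true ∧ ∃ u : List Bool, u.length ≤ p.eval x.length ∧
        ¬ Q (H (x, true :: u)) = g (bitEncode (x, u))) := by
    classical
    exact ⟨fun x => decide (x = List.replicate x.length true ∧ ∃ u : List Bool,
      u.length ≤ p.eval x.length ∧ ¬ Q (H (x, true :: u)) = g (bitEncode (x, u))), fun x => by
        simp⟩
  have hCNP : C ∈ NP := by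
    refine mem_NP_iff.2 ⟨p, fun z => decide (z.1 = List.replicate z.1.length true) &&
      !(decide (Q (H (z.1, true :: z.2)) = g (bitEncode (z.1, z.2)))), ?_, fun x => ?_⟩
    · refine PolyTime.and (isTally_polyTime.comp PolyTime.fst') (PolyTime.not
        (PolyTime.decide_eq (hQ'.1.comp (hH'.comp ?_)) (hg.comp
          ((Compat.enc (α := List Bool × List Bool)).comp ?_))))
      · fun_prop
      · fun_prop
    · rw [hC]
      simp only [Bool.and_eq_true, decide_eq_true_iff, Bool.not_eq_true', decide_eq_false_iff_not]
      constructor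
      · rintro ⟨h1, u, hu, h2⟩
        exact ⟨u, hu, h1, h2⟩
      · rintro ⟨u, hu, h1, h2⟩
        exact ⟨h1, u, hu, h2⟩
  have hCP := mem_P_iff.1 (tallyNP hL h hCNP fun x hx => ((hC x).1 hx).1)
  refine mem_P_iff.2 ((PolyTime.and isTally_polyTime (PolyTime.not hCP)).congr fun x => ?_)
  rw [Bool.eq_iff_iff, Bool.and_eq_true, decide_eq_true_iff, Bool.not_eq_true']
  constructor
  · intro hx
    have hx' := hT x hx
    refine ⟨hx', ?_⟩
    rw [← Bool.not_eq_true, hC]
    rintro ⟨_, u, hu, hne⟩
    rw [hx'] at hx hne
    exact hne ((hchar _).1 hx u hu)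
  · rintro ⟨hx', hx⟩
    rw [hx', hchar]
    intro u hu
    by_contra hne
    rw [← Bool.not_eq_true, hC] at hx
    exact hx ⟨hx', u, hu, by rw [hx']; simpa using hne⟩

/-- If tally sets of `Π₂ᵖ` are in `P` then there is a single uniformly optimal system. -/
theorem exists_of_collapse {L : DecisionProblem} (hL : IsCompleteFor NP L)
    (h : ∀ A ∈ PiTwo, IsTally A → A ∈ P) :
    ∃ Q, IsProofSystem L Q ∧ ∀ F, IsPolyTime F → SimulatesTallyFamily L Q F := by
  obtain ⟨y0, h0⟩ := exists_mem_of_complete hL
  obtain ⟨pL, RL, hRL, hLR⟩ := mem_NP_iff.1 hL.1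
  -- the universal tally set
  obtain ⟨A, hA⟩ : ∃ A : DecisionProblem, ∀ x, A x = true ↔
      (x = List.replicate x.length true ∧ ∀ u : List Bool, u.length = (un4 x.length).2.2.2 →
        L (UF (un4 x.length).1 (un4 x.length).2.1 (un4 x.length).2.2.1 u) = true) := by
    classical
    exact ⟨fun x => decide (x = List.replicate x.length true ∧
      ∀ u : List Bool, u.length = (un4 x.length).2.2.2 →
        L (UF (un4 x.length).1 (un4 x.length).2.1 (un4 x.length).2.2.1 u) = true), fun x => by
          simp⟩
  have hAT : IsTally A := fun x hx => ((hA x).1 hx).1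
  have hun : ∀ {α : Type} [Enc α] {f : α → List Bool}, PolyTime f →
      PolyTime (fun x => un4 (f x).length) := fun hf => un4_polyTime.comp hf.length
  have hAPi : A ∈ PiTwo := by
    refine ⟨pL.comp (40 * Polynomial.X + 40) + Polynomial.X,
      fun z => decide (z.1 = List.replicate z.1.length true) &&
        (!(decide (z.2.1.length = (un4 z.1.length).2.2.2)) ||
        (decide (z.2.2.length ≤ pL.eval (UF (un4 z.1.length).1 (un4 z.1.length).2.1
          (un4 z.1.length).2.2.1 z.2.1).length) &&
        RL (UF (un4 z.1.length).1 (un4 z.1.length).2.1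
          (un4 z.1.length).2.2.1 z.2.1, z.2.2))), isPolyTime_iff.2 ?_, fun x => ?_⟩
    · have h1 := hun (PolyTime.fst' (α := List Bool) (β := List Bool × List Bool))
      have h2 : PolyTime (fun z : List Bool × (List Bool × List Bool) =>
          UF (un4 z.1.length).1 (un4 z.1.length).2.1 (un4 z.1.length).2.2.1 z.2.1) :=
        UF_polyTime (PolyTime.fst h1) (PolyTime.fst (PolyTime.snd h1))
          (PolyTime.fst (PolyTime.snd (PolyTime.snd h1))) (by fun_prop)
      refine PolyTime.and (isTally_polyTime.comp PolyTime.fst') (PolyTime.or (PolyTime.not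
        (PolyTime.decide_eq (by fun_prop) (PolyTime.snd (PolyTime.snd (PolyTime.snd h1)))))
          (PolyTime.and (PolyTime.decide_le (by fun_prop) (polyEval_length pL h2))
            (hRL.comp (PolyTime.pair h2 (by fun_prop)))))
    · rw [hA]
      simp only [Bool.and_eq_true, decide_eq_true_iff, Bool.or_eq_true, Bool.not_eq_true',
        decide_eq_false_iff_not]
      obtain ⟨l1, l2, l3, l4⟩ := un4_le x.length
      generalize un4 x.length = q at l1 l2 l3 l4 ⊢
      obtain ⟨j, t, e, l⟩ := q
      simp only at l1 l2 l3 l4 ⊢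
      simp only [Polynomial.eval_add, Polynomial.eval_comp, Polynomial.eval_mul,
        Polynomial.eval_X]
      have hE : Polynomial.eval x.length (40 : Polynomial ℕ) = 40 := by
        exact Polynomial.eval_natCast (n := 40) (x := x.length)
      rw [hE]
      constructor
      · rintro ⟨hx, hall⟩ u _
        by_cases hu : u.length = l
        · obtain ⟨w, hw, hw'⟩ := (hLR _).1 (hall u hu)
          refine ⟨w, ?_, hx, Or.inr ⟨hw, hw'⟩⟩
          refine (hw.trans (eval_mono pL ?_)).trans (Nat.le_add_right _ _)
          have := UF_length j t e u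
          omega
        · exact ⟨[], Nat.zero_le _, hx, Or.inl hu⟩
      · intro hall
        obtain ⟨_, _, hx, _⟩ := hall [] (Nat.zero_le _)
        refine ⟨hx, fun u hu => ?_⟩
        obtain ⟨w, _, _, hw⟩ := hall u (by omega)
        rcases hw with hw | ⟨hw, hw'⟩
        · exact absurd hu hw
        · exact (hLR _).2 ⟨w, hw, hw'⟩
  have hAP : PolyTime A := mem_P_iff.1 (h A hAPi hAT)
  obtain ⟨D, hD, hD'⟩ := Compat.dec (α := List Bool × (List Bool × (List Bool × List Bool)))
  -- the optimal system
  have hQ : PolyTime (fun π : List Bool =>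
      bif A (ones (pr4 (D π).1.length (D π).2.1.length (D π).2.2.1.length (D π).2.2.2.length)) then
        UF (D π).1.length (D π).2.1.length (D π).2.2.1.length (D π).2.2.2 else y0) := by
    have d1 := PolyTime.fst hD
    have d2 := PolyTime.fst (PolyTime.snd hD)
    have d3 := PolyTime.fst (PolyTime.snd (PolyTime.snd hD))
    have d4 := PolyTime.snd (PolyTime.snd (PolyTime.snd hD))
    exact PolyTime.cond (hAP.comp (PolyTime.replicate (pr4_polyTime d1.length d2.length d3.length
      d4.length) (PolyTime.const true))) (UF_polyTime d1.length d2.length d3.length d4)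
        (PolyTime.const y0)
  have hspec : ∀ j t e : ℕ, ∀ u : List Bool,
      (∀ u' : List Bool, u'.length = u.length → L (UF j t e u') = true) →
      (bif A (ones (pr4 (D (bitEncode (ones j, (ones t, (ones e, u))))).1.length
        (D (bitEncode (ones j, (ones t, (ones e, u))))).2.1.length
        (D (bitEncode (ones j, (ones t, (ones e, u))))).2.2.1.length
        (D (bitEncode (ones j, (ones t, (ones e, u))))).2.2.2.length)) then
        UF (D (bitEncode (ones j, (ones t, (ones e, u))))).1.length
          (D (bitEncode (ones j, (ones t, (ones e, u))))).2.1.length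
          (D (bitEncode (ones j, (ones t, (ones e, u))))).2.2.1.length
          (D (bitEncode (ones j, (ones t, (ones e, u))))).2.2.2 else y0) = UF j t e u := by
    intro j t e u hu
    rw [hD']
    simp only [List.length_replicate]
    have : A (ones (pr4 j t e u.length)) = true := by
      rw [hA]
      simp only [List.length_replicate, un4_pr4]
      exact ⟨trivial, hu⟩
    rw [this, cond_true]
  refine ⟨_, isProofSystem_iff.2 ⟨hQ, fun y => ⟨fun hy => ?_, ?_⟩⟩, fun F hF => ?_⟩
  · obtain ⟨j, Qp, hj⟩ := UF_spec (PolyTime.const (α := List Bool × List Bool) y)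
    refine ⟨bitEncode (ones j, (ones (Qp.eval 1), (ones 0, ([] : List Bool)))), ?_⟩
    beta_reduce
    rw [hspec j (Qp.eval 1) 0 []]
    · exact hj 0 [] _ le_rfl
    · intro u' hu'
      rw [List.length_eq_zero_iff.1 hu', hj 0 [] (Qp.eval 1) le_rfl]
      exact hy
  · rintro ⟨π, rfl⟩
    beta_reduce
    cases hc : A (ones (pr4 (D π).1.length (D π).2.1.length (D π).2.2.1.length
      (D π).2.2.2.length))
    · simpa using h0
    · rw [cond_true]
      have := ((hA _).1 hc).2
      simp only [List.length_replicate, un4_pr4] at this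
      exact this _ rfl
  · obtain ⟨j, Qp, hj⟩ := UF_spec (isPolyTime_iff.1 hF)
    refine ⟨fun z => bitEncode (ones j, (ones (Qp.eval (6 * z.1.length + 1 + 3 * z.2.length)),
      (ones z.1.length, z.2))), isPolyTime_iff.2 ?_, fun n hn π => ?_⟩
    · refine (Compat.enc (α := List Bool × (List Bool × (List Bool × List Bool)))).comp
        (PolyTime.pair (PolyTime.const _) (PolyTime.pair (PolyTime.replicate
          (polyEval_polyTime ?_ Qp) (PolyTime.const true)) (PolyTime.pair
            (PolyTime.replicate (by fun_prop) (PolyTime.const true)) (by fun_prop))))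
      exact PolyTime.natAdd (PolyTime.natAdd (PolyTime.natMul (by fun_prop) (by fun_prop))
        (by fun_prop)) (PolyTime.natMul (by fun_prop) (by fun_prop))
    · beta_reduce
      simp only [List.length_replicate]
      rw [hspec]
      · exact hj n π _ le_rfl
      · intro u' hu'
        rw [hj n u' _ (by rw [hu'])]
        exact ((isProofSystem_iff.1 hn).2 _).2 ⟨u', rfl⟩

end proof

/-- For an `NP`-complete language `L` the following are equivalent: some proof system for `L`
simulates all polynomial-time tally families uniformly; every polynomial-time tally family is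
simulated uniformly by some proof system for `L`; every tally language in `Π₂ᵖ` is in `P`. -/
theorem result (L : DecisionProblem) (hL : IsCompleteFor NP L) :
    ((∃ Q, IsProofSystem L Q ∧ ∀ F, IsPolyTime F → SimulatesTallyFamily L Q F) ↔
      ∀ A ∈ PiTwo, IsTally A → A ∈ P) ∧
    ((∀ F, IsPolyTime F → ∃ Q, IsProofSystem L Q ∧ SimulatesTallyFamily L Q F) ↔
      ∀ A ∈ PiTwo, IsTally A → A ∈ P) :=
  ⟨⟨fun ⟨Q, hQ, hs⟩ A hA hT => collapse_of_allSim hL (fun F hF => ⟨Q, hQ, hs F hF⟩) hA hT,
      exists_of_collapse hL⟩,
    ⟨fun h A hA hT => collapse_of_allSim hL h hA hT, fun h F hF => by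
      obtain ⟨Q, hQ, hs⟩ := exists_of_collapse hL h
      exact ⟨Q, hQ, hs F hF⟩⟩⟩

end Pool.Agent.Results.MP_c56612_lc.UniformTally
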