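import Pool.Agent.POpt67.Basic
import Pool.Agent.TMBridge67.Univ2

/-!
# Tally coding of tuples; the universal family
-/

set_option autoImplicit false

namespace Pool.Agent.POpt67

open Pool.Agent.PT Pool.Agent.TMB67 N68a2faeb N793a5b8e N487b59b3

/-- A pairing of natural numbers. -/
def pr (a b : ℕ) : ℕ := (a + b) ^ 2 + a

theorem pr_inj {a b c d : ℕ} (h : pr a b = pr c d) : a = c ∧ b = d := by
  unfold pr at h
  have h1 : a + b = c + d := by
    rcases lt_trichotomy (a + b) (c + d) with hlt | heq | hgt
    · have : (a + b + 1) ^ 2 ≤ (c + d) ^ 2 := Nat.pow_le_pow_left hlt 2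
      nlinarith
    · exact heq
    · have : (c + d + 1) ^ 2 ≤ (a + b) ^ 2 := Nat.pow_le_pow_left hgt 2
      nlinarith
  rw [h1] at h
  omega

theorem le_pr_left (a b : ℕ) : a ≤ pr a b := Nat.le_add_left _ _

theorem le_pr_right (a b : ℕ) : b ≤ pr a b := by
  unfold pr
  nlinarith [Nat.zero_le a, Nat.zero_le b]

/-- Inverse of the pairing, by search. -/
def unpr (n : ℕ) : ℕ × ℕ :=
  (((List.range (n + 1)).product (List.range (n + 1))).find? fun p => decide (pr p.1 p.2 = n)).getD
    (0, 0)

theorem unpr_pr (a b : ℕ) : unpr (pr a b) = (a, b) := by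
  unfold unpr
  cases h : ((List.range (pr a b + 1)).product (List.range (pr a b + 1))).find?
      (fun p => decide (pr p.1 p.2 = pr a b)) with
  | none =>
    rw [List.find?_eq_none] at h
    have := h (a, b) (by
      simp only [List.pair_mem_product, List.mem_range]
      exact ⟨Nat.lt_succ_of_le (le_pr_left a b), Nat.lt_succ_of_le (le_pr_right a b)⟩)
    simp at this
  | some p =>
    have h1 := List.find?_some h
    simp only [decide_eq_true_eq] at h1
    obtain ⟨h2, h3⟩ := pr_inj h1
    exact Prod.ext h2 h3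

theorem unpr_le (n : ℕ) : (unpr n).1 ≤ n ∧ (unpr n).2 ≤ n := by
  unfold unpr
  cases h : ((List.range (n + 1)).product (List.range (n + 1))).find?
      (fun p => decide (pr p.1 p.2 = n)) with
  | none => simp
  | some p =>
    have h1 := List.mem_of_find?_eq_some h
    obtain ⟨a, b⟩ := p
    simp only [List.pair_mem_product, List.mem_range] at h1
    exact ⟨Nat.le_of_lt_succ h1.1, Nat.le_of_lt_succ h1.2⟩

theorem pr_polyTime {α : Type} [Enc α] {a b : α → ℕ} (ha : PolyTime a) (hb : PolyTime b) :
    PolyTime (fun x => pr (a x) (b x)) :=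
  ((ha.natAdd hb).natPowConst 2).natAdd ha

theorem unpr_polyTime : PolyTime unpr := by
  have h1 : PolyTime (fun n : ℕ => List.range (n + 1)) :=
    PolyTime.range (PolyTime.succ PolyTime.id)
  have h2 : PolyTime (fun n : ℕ => (List.range (n + 1)).product (List.range (n + 1))) :=
    PolyTime.product h1 h1
  refine PolyTime.optionGetD (PolyTime.find? (g := fun n p => decide (pr p.1 p.2 = n)) h2 ?_)
    (PolyTime.const _)
  exact PolyTime.decide_eq (pr_polyTime (by fun_prop) (by fun_prop)) (by fun_prop)

/-- Code of a quadruple. -/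
def pr4 (j t e l : ℕ) : ℕ := pr j (pr t (pr e l))

theorem pr4_polyTime {α : Type} [Enc α] {a b c d : α → ℕ} (ha : PolyTime a) (hb : PolyTime b)
    (hc : PolyTime c) (hd : PolyTime d) : PolyTime (fun x => pr4 (a x) (b x) (c x) (d x)) :=
  pr_polyTime ha (pr_polyTime hb (pr_polyTime hc hd))

/-- Components of a coded quadruple. -/
def un4 (n : ℕ) : ℕ × ℕ × ℕ × ℕ :=
  ((unpr n).1, (unpr (unpr n).2).1, unpr (unpr (unpr n).2).2)

theorem un4_pr4 (j t e l : ℕ) : un4 (pr4 j t e l) = (j, t, e, l) := by
  simp [un4, pr4, unpr_pr]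

theorem un4_le (n : ℕ) : (un4 n).1 ≤ n ∧ (un4 n).2.1 ≤ n ∧ (un4 n).2.2.1 ≤ n ∧
    (un4 n).2.2.2 ≤ n := by
  obtain ⟨h1, h2⟩ := unpr_le n
  obtain ⟨h3, h4⟩ := unpr_le (unpr n).2
  obtain ⟨h5, h6⟩ := unpr_le (unpr (unpr n).2).2
  refine ⟨h1, h3.trans h2, h5.trans (h4.trans h2), h6.trans (h4.trans h2)⟩

theorem un4_polyTime : PolyTime un4 := by
  have h1 := unpr_polyTime
  have h2 : PolyTime (fun n => unpr (unpr n).2) := h1.comp (PolyTime.snd h1)
  have h3 : PolyTime (fun n => unpr (unpr (unpr n).2).2) := h1.comp (PolyTime.snd h2)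
  exact PolyTime.pair (PolyTime.fst h1) (PolyTime.pair (PolyTime.fst h2) h3)

theorem bitEncode_list_length (x : List Bool) : (bitEncode x).length = 3 * x.length := by
  have h : ∀ x : List Bool, (bitEncode x : List Bool) =
      ((x.map bitEncode).map delimit).flatten := fun _ => rfl
  rw [h]
  induction x with
  | nil => rfl
  | cons b x ih =>
    rw [List.map_cons, List.map_cons, List.flatten_cons, List.length_append, ih, length_delimit]
    have : (bitEncode b : List Bool).length = 1 := rfl
    rw [this, List.length_cons]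
    ring

theorem bitEncode_pair_length (x y : List Bool) :
    (bitEncode (x, y)).length = 6 * x.length + 1 + 3 * y.length := by
  have h : (bitEncode (x, y) : List Bool) = delimit (bitEncode x) ++ bitEncode y := rfl
  rw [h, List.length_append, length_delimit, bitEncode_list_length, bitEncode_list_length]
  ring

/-- The bit string `1^n`. -/
abbrev ones (n : ℕ) : List Bool := List.replicate n true

/-- The universal family. -/
noncomputable def UF (j t e : ℕ) (u : List Bool) : List Bool :=
  uni (cmdOf j) t (bitEncode (ones e, u))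

theorem UF_polyTime {α : Type} [Enc α] {j t e : α → ℕ} {u : α → List Bool} (hj : PolyTime j)
    (ht : PolyTime t) (he : PolyTime e) (hu : PolyTime u) :
    PolyTime (fun x => UF (j x) (t x) (e x) (u x)) := by
  refine uni_polyTime.comp (f := fun x => (cmdOf (j x), t x, bitEncode (ones (e x), u x)))
    (PolyTime.pair (cmdOf_polyTime.comp hj) (PolyTime.pair ht ?_))
  exact (Compat.enc (α := List Bool × List Bool)).comp
    (PolyTime.pair (PolyTime.replicate he (PolyTime.const true)) hu)

theorem UF_length (j t e : ℕ) (u : List Bool) :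
    (UF j t e u).length ≤ 24 * e + 12 * u.length + 5 + t := by
  have := uni_length (cmdOf j) t (bitEncode (ones e, u))
  rw [bitEncode_pair_length, List.length_replicate] at this
  unfold UF
  omega

/-- Every polynomial-time family occurs in the universal family. -/
theorem UF_spec {F : List Bool × List Bool → List Bool} (hF : PolyTime F) :
    ∃ (j : ℕ) (Q : Polynomial ℕ), ∀ (e : ℕ) (u : List Bool) (t : ℕ),
      Q.eval (6 * e + 1 + 3 * u.length) ≤ t → UF j t e u = F (ones e, u) := by
  obtain ⟨D, hD, hD'⟩ := Compat.dec (α := List Bool × List Bool)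
  obtain ⟨p, Q, h⟩ := uni_spec (hF.comp hD)
  obtain ⟨j, hj⟩ := cmdOf_surjective p
  refine ⟨j, Q, fun e u t ht => ?_⟩
  rw [UF, hj, h (bitEncode (ones e, u)) t (by
    rw [bitEncode_pair_length, List.length_replicate]; exact ht), hD']

end Pool.Agent.POpt67
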