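import Pool.Agent.POpt67.Basic

/-!
# Uniform p-optimality with binary parameters is equivalent to P = NP
-/

set_option autoImplicit false

namespace Pool.Agent.Results.MP_c56612_lc.UniformBinary

open N68a2faeb N793a5b8e

/-- The proof system `Q` simulates the family `F` uniformly: one polynomial-time function `H`
translates, for every parameter `e` such that `F (e, ·)` is a proof system for `L`, all
`F (e, ·)`-proofs into `Q`-proofs of the same strings. -/
def SimulatesFamily (L : DecisionProblem) (Q : List Bool → List Bool)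
    (F : List Bool × List Bool → List Bool) : Prop :=
  ∃ H : List Bool × List Bool → List Bool, IsPolyTime H ∧
    ∀ e : List Bool, IsProofSystem L (fun π => F (e, π)) → ∀ π, Q (H (e, π)) = F (e, π)

open Pool.Agent.PT Pool.Agent.TMB67 Pool.Agent.POpt67 in
/-- For an `NP`-complete language `L` the following are equivalent: some proof system for `L`
simulates all polynomial-time families uniformly in the parameter; every polynomial-time family is
simulated uniformly by some proof system for `L`; `NP ⊆ P`. -/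
theorem result (L : DecisionProblem) (hL : IsCompleteFor NP L) :
    ((∃ Q, IsProofSystem L Q ∧ ∀ F, IsPolyTime F → SimulatesFamily L Q F) ↔ NP ⊆ P) ∧
    ((∀ F, IsPolyTime F → ∃ Q, IsProofSystem L Q ∧ SimulatesFamily L Q F) ↔ NP ⊆ P) := by
  obtain ⟨y0, h0⟩ := exists_mem_of_complete hL
  have key1 : NP ⊆ P → ∃ Q, IsProofSystem L Q ∧ ∀ F, IsPolyTime F → SimulatesFamily L Q F := by
    intro h
    have hLP : PolyTime L := mem_P_iff.1 (h hL.1)
    refine ⟨fun π => bif L π then π else y0, isProofSystem_iff.2 ⟨?_, fun y => ⟨fun hy => ?_, ?_⟩⟩,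
      fun F hF => ⟨F, hF, fun e he π => ?_⟩⟩
    · exact PolyTime.cond hLP PolyTime.id (PolyTime.const y0)
    · exact ⟨y, by simp [hy]⟩
    · rintro ⟨π, rfl⟩
      beta_reduce
      cases hπ : L π
      · simpa using h0
      · simpa using hπ
    · have hm : L (F (e, π)) = true := ((isProofSystem_iff.1 he).2 _).2 ⟨π, rfl⟩
      simp [hm]
  have key2 : (∀ F, IsPolyTime F → ∃ Q, IsProofSystem L Q ∧ SimulatesFamily L Q F) → NP ⊆ P := by
    intro h A hA
    obtain ⟨g, hg, hgA⟩ := reduction_of_complete hL hA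
    obtain ⟨P₀, hP₀, hP₀'⟩ := exists_proofSystem hL.1 h0
    have hF : PolyTime (fun p : List Bool × List Bool =>
        if p.2 = [] then g p.1 else P₀ p.2.tail) :=
      PolyTime.ite (by fun_prop) (hg.comp PolyTime.fst') (hP₀.comp (PolyTime.tail PolyTime.snd'))
    obtain ⟨Q, hQ, H, hH, hsim⟩ := h _ (isPolyTime_iff.2 hF)
    have hQ' := isProofSystem_iff.1 hQ
    have hH' := isPolyTime_iff.1 hH
    refine mem_P_iff.2 ((PolyTime.decide_eq (f := fun x => Q (H (x, []))) (g := g)
      (hQ'.1.comp (hH'.comp (PolyTime.pair PolyTime.id (PolyTime.const [])))) hg).congr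
        fun x => ?_)
    rw [Bool.eq_iff_iff, decide_eq_true_iff]
    constructor
    · intro hx
      refine hsim x (isProofSystem_iff.2 ⟨?_, fun y => ⟨fun hy => ?_, ?_⟩⟩) []
      · exact hF.comp (PolyTime.pair (PolyTime.const x) PolyTime.id)
      · obtain ⟨π, hπ⟩ := (hP₀' y).1 hy
        exact ⟨true :: π, by simpa using hπ⟩
      · rintro ⟨π, rfl⟩
        cases π with
        | nil => simpa [← hgA] using hx
        | cons b π => simpa using (hP₀' _).2 ⟨π, rfl⟩
    · intro hx
      rw [hgA]
      exact (hQ'.2 _).2 ⟨_, hx⟩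
  exact ⟨⟨fun ⟨Q, hQ, hs⟩ => key2 fun F hF => ⟨Q, hQ, hs F hF⟩, key1⟩,
    ⟨key2, fun h F hF => by
      obtain ⟨Q, hQ, hs⟩ := key1 h
      exact ⟨Q, hQ, hs F hF⟩⟩⟩

end Pool.Agent.Results.MP_c56612_lc.UniformBinary
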